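import Mathlib
import Pool.Agent.Dia50.FW

/-!
MP_d16438_co, PolynomialLower: Frankl-Wilson for the middle layer of a `4q`-set, `q = 2^e`.
-/

set_option autoImplicit false

namespace Pool.Dia50d

open Finset

/-- Members contain a fixed point and do not meet in `q` elements. -/
theorem fw_star (e M : ℕ) (z : Fin M) (F : Finset (Finset (Fin M)))
    (hF : ∀ A ∈ F, A.card = 2 * 2 ^ e) (hz : ∀ A ∈ F, z ∈ A)
    (hav : ∀ A ∈ F, ∀ B ∈ F, (A ∩ B).card ≠ 2 ^ e) :
    F.card ≤ (M - 1).choose (2 ^ e - 1) := by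
  classical
  set q := 2 ^ e with hq
  have hq1 : 1 ≤ q := Nat.one_le_two_pow
  set J := powersetCard (q - 1) ((univ : Finset (Fin M)).erase z) with hJ
  have hJc : J.card = (M - 1).choose (q - 1) := by
    rw [hJ, Finset.card_powersetCard, Finset.card_erase_of_mem (Finset.mem_univ z),
      Finset.card_univ, Fintype.card_fin]
  let v : F → J → ZMod 2 := fun A I => if I.1 ⊆ A.1 then 1 else 0
  have hvw : ∀ A B : F, ∑ I, v A I * v B I =
      ((((A.1 ∩ B.1).card - 1).choose (q - 1) : ℕ) : ZMod 2) := by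
    intro A B
    have h1 : ∀ I : J, v A I * v B I = if I.1 ⊆ A.1 ∩ B.1 then (1 : ZMod 2) else 0 := by
      intro I
      simp only [v, Finset.subset_inter_iff]
      by_cases hA : I.1 ⊆ A.1 <;> by_cases hB : I.1 ⊆ B.1 <;> simp [hA, hB]
    rw [Finset.sum_congr rfl (fun I _ => h1 I)]
    have h2 : ∑ I : J, (if I.1 ⊆ A.1 ∩ B.1 then (1 : ZMod 2) else 0)
        = ∑ I ∈ J, (if I ⊆ A.1 ∩ B.1 then (1 : ZMod 2) else 0) :=
      Finset.sum_coe_sort J (fun I => if I ⊆ A.1 ∩ B.1 then (1 : ZMod 2) else 0)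
    rw [h2, Finset.sum_ite, Finset.sum_const_zero, add_zero, Finset.sum_const, nsmul_one]
    congr 1
    have h3 : J.filter (fun I => I ⊆ A.1 ∩ B.1) = powersetCard (q - 1) ((A.1 ∩ B.1).erase z) := by
      ext I
      simp only [hJ, Finset.mem_filter, Finset.mem_powersetCard]
      constructor
      · rintro ⟨⟨h4, h5⟩, h6⟩
        refine ⟨fun x hx => Finset.mem_erase.2 ⟨?_, h6 hx⟩, h5⟩
        exact (Finset.mem_erase.1 (h4 hx)).1
      · rintro ⟨h4, h5⟩
        exact ⟨⟨fun x hx => Finset.mem_erase.2 ⟨(Finset.mem_erase.1 (h4 hx)).1, Finset.mem_univ _⟩,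
          h5⟩, fun x hx => (Finset.mem_erase.1 (h4 hx)).2⟩
    rw [h3, Finset.card_powersetCard, Finset.card_erase_of_mem
      (Finset.mem_inter.2 ⟨hz A.1 A.2, hz B.1 B.2⟩)]
  have hdiag : ∀ A : F, ∑ I, v A I * v A I = 1 := by
    intro A
    rw [hvw, Finset.inter_self, hF A.1 A.2]
    have : 2 * q - 1 = 2 ^ (e + 1) - 1 := by rw [pow_succ]; omega
    rw [this]
    have h1 := Pool.Dia50.odd_choose (e + 1) (q - 1) (by rw [pow_succ]; omega)
    have := ZMod.natCast_mod ((2 ^ (e + 1) - 1).choose (q - 1)) 2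
    rw [← this, h1]; rfl
  have hoff : ∀ A B : F, A ≠ B → ∑ I, v A I * v B I = 0 := by
    intro A B hAB
    rw [hvw, ZMod.natCast_eq_zero_iff]
    have hne : A.1 ≠ B.1 := fun h => hAB (Subtype.ext h)
    have hcard := hav A.1 A.2 B.1 B.2
    have hpos : 1 ≤ (A.1 ∩ B.1).card :=
      Finset.card_pos.2 ⟨z, Finset.mem_inter.2 ⟨hz A.1 A.2, hz B.1 B.2⟩⟩
    have hlt : (A.1 ∩ B.1).card < 2 * q := by
      have h1 : (A.1 ∩ B.1).card ≤ A.1.card := Finset.card_le_card Finset.inter_subset_left
      rw [hF A.1 A.2] at h1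
      rcases Nat.lt_or_eq_of_le h1 with h | h
      · exact h
      · exfalso
        have e1 : A.1 ∩ B.1 = A.1 :=
          Finset.eq_of_subset_of_card_le Finset.inter_subset_left (by rw [hF A.1 A.2, h])
        have e2 : A.1 = B.1 := by
          apply Finset.eq_of_subset_of_card_le
          · rw [← e1]; exact Finset.inter_subset_right
          · rw [hF A.1 A.2, hF B.1 B.2]
        exact hne e2
    apply Pool.Dia50.even_choose e _ hpos
    intro hd
    obtain ⟨k, hk⟩ := hd
    rw [← hq] at hk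
    have hk1 : k < 2 := by
      by_contra hk2
      have : 2 ≤ k := by omega
      have : q * 2 ≤ q * k := Nat.mul_le_mul_left q this
      omega
    have hk0 : k ≠ 0 := by
      rintro rfl
      rw [mul_zero] at hk
      omega
    have : k = 1 := by omega
    rw [this, mul_one] at hk
    exact hcard hk
  have hli : LinearIndependent (ZMod 2) v := by
    rw [Fintype.linearIndependent_iff]
    intro g hg B
    have h1 : ∑ I, (∑ A, g A • v A) I * v B I = 0 := by rw [hg]; simp
    have h2 : ∑ I, (∑ A, g A • v A) I * v B I = ∑ A, g A * ∑ I, v A I * v B I := by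
      simp only [Finset.sum_apply, Pi.smul_apply, smul_eq_mul, Finset.sum_mul, Finset.mul_sum]
      rw [Finset.sum_comm]
      apply Finset.sum_congr rfl; intro A _
      apply Finset.sum_congr rfl; intro I _
      ring
    rw [h2, Finset.sum_eq_single B] at h1
    · rw [hdiag, mul_one] at h1; exact h1
    · intro A _ hA
      rw [hoff A B hA, mul_zero]
    · intro h; exact absurd (Finset.mem_univ _) h
  have h3 := hli.fintype_card_le_finrank
  rw [Module.finrank_fintype_fun_eq_card, Fintype.card_coe, Fintype.card_coe, hJc] at h3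
  exact h3

/-- No two members of the middle layer family meet in `q` elements. -/
theorem fw_bal (e : ℕ) (F : Finset (Finset (Fin (4 * 2 ^ e))))
    (hF : ∀ A ∈ F, A.card = 2 * 2 ^ e)
    (hav : ∀ A ∈ F, ∀ B ∈ F, (A ∩ B).card ≠ 2 ^ e) :
    F.card ≤ 2 * (4 * 2 ^ e - 1).choose (2 ^ e - 1) := by
  classical
  have hq1 : 1 ≤ 2 ^ e := Nat.one_le_two_pow
  set z : Fin (4 * 2 ^ e) := ⟨0, by omega⟩ with hz
  have h1 := fw_star e _ z (F.filter (fun A => z ∈ A))
    (fun A hA => hF A (Finset.mem_filter.1 hA).1) (fun A hA => (Finset.mem_filter.1 hA).2)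
    (fun A hA B hB => hav A (Finset.mem_filter.1 hA).1 B (Finset.mem_filter.1 hB).1)
  have h2 := fw_star e _ z ((F.filter (fun A => ¬ z ∈ A)).image (fun A => Aᶜ))
    (by
      intro A hA
      obtain ⟨B, hB, rfl⟩ := Finset.mem_image.1 hA
      rw [Finset.card_compl, Fintype.card_fin, hF B (Finset.mem_filter.1 hB).1]; omega)
    (by
      intro A hA
      obtain ⟨B, hB, rfl⟩ := Finset.mem_image.1 hA
      rw [Finset.mem_compl]; exact (Finset.mem_filter.1 hB).2)
    (by
      intro A hA B hB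
      obtain ⟨A', hA', rfl⟩ := Finset.mem_image.1 hA
      obtain ⟨B', hB', rfl⟩ := Finset.mem_image.1 hB
      have h3 := hav A' (Finset.mem_filter.1 hA').1 B' (Finset.mem_filter.1 hB').1
      have h4 := hF A' (Finset.mem_filter.1 hA').1
      have h5 := hF B' (Finset.mem_filter.1 hB').1
      have h6 : (A'ᶜ ∩ B'ᶜ) = (A' ∪ B')ᶜ := by rw [Finset.compl_union]
      have h7 := Finset.card_union_add_card_inter A' B'
      rw [h6, Finset.card_compl, Fintype.card_fin]
      have h8 : (A' ∪ B').card ≤ 4 * 2 ^ e := by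
        have := Finset.card_le_univ (A' ∪ B')
        rwa [Fintype.card_fin] at this
      omega)
  have h3 : ((F.filter (fun A => ¬ z ∈ A)).image (fun A => Aᶜ)).card
      = (F.filter (fun A => ¬ z ∈ A)).card :=
    Finset.card_image_of_injective _ compl_injective
  have h4 := Finset.card_filter_add_card_filter_not (s := F) (p := fun A => z ∈ A)
  omega

/-- The inequality behind one step. -/
theorem poly_ineq (t : ℕ) :
    1792 * ((8 * t + 1) * (8 * t + 3) * (8 * t + 5) * (8 * t + 7)) ^ 2 ≤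
      81 * ((12 * t + 1) * (12 * t + 2) * (12 * t + 4) * (12 * t + 5) * (12 * t + 7) *
        (12 * t + 8) * (12 * t + 10) * (12 * t + 11)) := by
  have h : 81 * ((12 * t + 1) * (12 * t + 2) * (12 * t + 4) * (12 * t + 5) * (12 * t + 7) *
        (12 * t + 8) * (12 * t + 10) * (12 * t + 11))
      = 1792 * ((8 * t + 1) * (8 * t + 3) * (8 * t + 5) * (8 * t + 7)) ^ 2 +
        (201600 + 47042880 * t + 692308544 * t ^ 2 + 4323742208 * t ^ 3 +
          14508644608 * t ^ 4 + 28154617856 * t ^ 5 + 31615688704 * t ^ 6 +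
          19054985216 * t ^ 7 + 4763746304 * t ^ 8) := by ring
  rw [h]; exact Nat.le_add_right _ _

theorem fact_ineq (t : ℕ) :
    7 ^ t * (8 * t).factorial ^ 2 ≤ (4 * t).factorial * (12 * t).factorial := by
  induction t with
  | zero => simp
  | succ t ih =>
    have e4 : (4 * (t + 1)).factorial =
        (4 * t + 1) * (4 * t + 2) * (4 * t + 3) * (4 * t + 4) * (4 * t).factorial := by
      rw [show 4 * (t + 1) = 4 * t + 3 + 1 by ring, Nat.factorial_succ,
        show 4 * t + 3 = 4 * t + 2 + 1 by ring, Nat.factorial_succ,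
        show 4 * t + 2 = 4 * t + 1 + 1 by ring, Nat.factorial_succ, Nat.factorial_succ]
      ring
    have e8 : (8 * (t + 1)).factorial =
        (8 * t + 1) * (8 * t + 2) * (8 * t + 3) * (8 * t + 4) * (8 * t + 5) * (8 * t + 6) *
          (8 * t + 7) * (8 * t + 8) * (8 * t).factorial := by
      rw [show 8 * (t + 1) = 8 * t + 7 + 1 by ring, Nat.factorial_succ,
        show 8 * t + 7 = 8 * t + 6 + 1 by ring, Nat.factorial_succ,
        show 8 * t + 6 = 8 * t + 5 + 1 by ring, Nat.factorial_succ,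
        show 8 * t + 5 = 8 * t + 4 + 1 by ring, Nat.factorial_succ,
        show 8 * t + 4 = 8 * t + 3 + 1 by ring, Nat.factorial_succ,
        show 8 * t + 3 = 8 * t + 2 + 1 by ring, Nat.factorial_succ,
        show 8 * t + 2 = 8 * t + 1 + 1 by ring, Nat.factorial_succ, Nat.factorial_succ]
      ring
    have e12 : (12 * (t + 1)).factorial =
        (12 * t + 1) * (12 * t + 2) * (12 * t + 3) * (12 * t + 4) * (12 * t + 5) * (12 * t + 6) *
          (12 * t + 7) * (12 * t + 8) * (12 * t + 9) * (12 * t + 10) * (12 * t + 11) *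
          (12 * t + 12) * (12 * t).factorial := by
      rw [show 12 * (t + 1) = 12 * t + 11 + 1 by ring, Nat.factorial_succ,
        show 12 * t + 11 = 12 * t + 10 + 1 by ring, Nat.factorial_succ,
        show 12 * t + 10 = 12 * t + 9 + 1 by ring, Nat.factorial_succ,
        show 12 * t + 9 = 12 * t + 8 + 1 by ring, Nat.factorial_succ,
        show 12 * t + 8 = 12 * t + 7 + 1 by ring, Nat.factorial_succ,
        show 12 * t + 7 = 12 * t + 6 + 1 by ring, Nat.factorial_succ,
        show 12 * t + 6 = 12 * t + 5 + 1 by ring, Nat.factorial_succ,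
        show 12 * t + 5 = 12 * t + 4 + 1 by ring, Nat.factorial_succ,
        show 12 * t + 4 = 12 * t + 3 + 1 by ring, Nat.factorial_succ,
        show 12 * t + 3 = 12 * t + 2 + 1 by ring, Nat.factorial_succ,
        show 12 * t + 2 = 12 * t + 1 + 1 by ring, Nat.factorial_succ, Nat.factorial_succ]
      ring
    rw [e4, e8, e12]
    set A := (4 * t).factorial
    set B := (8 * t).factorial
    set D := (12 * t).factorial
    have hp := poly_ineq t
    set K := ((8 * t + 2) * (8 * t + 4) * (8 * t + 6) * (8 * t + 8)) ^ 2 with hK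
    set Q := ((8 * t + 1) * (8 * t + 3) * (8 * t + 5) * (8 * t + 7)) ^ 2 with hQ
    set P := (12 * t + 1) * (12 * t + 2) * (12 * t + 4) * (12 * t + 5) * (12 * t + 7) *
        (12 * t + 8) * (12 * t + 10) * (12 * t + 11) with hP
    have k1 : 7 ^ (t + 1) * ((8 * t + 1) * (8 * t + 2) * (8 * t + 3) * (8 * t + 4) * (8 * t + 5) *
        (8 * t + 6) * (8 * t + 7) * (8 * t + 8) * B) ^ 2 = 7 * (K * Q) * (7 ^ t * B ^ 2) := by
      rw [hK, hQ]; ring
    have k2 : 256 * ((4 * t + 1) * (4 * t + 2) * (4 * t + 3) * (4 * t + 4) * A *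
        ((12 * t + 1) * (12 * t + 2) * (12 * t + 3) * (12 * t + 4) * (12 * t + 5) *
          (12 * t + 6) * (12 * t + 7) * (12 * t + 8) * (12 * t + 9) * (12 * t + 10) *
          (12 * t + 11) * (12 * t + 12) * D)) = K * (81 * P) * (A * D) := by
      rw [hK, hP]; ring
    apply Nat.le_of_mul_le_mul_left _ (by norm_num : 0 < 256)
    rw [k1, k2]
    calc 256 * (7 * (K * Q) * (7 ^ t * B ^ 2)) = K * (1792 * Q) * (7 ^ t * B ^ 2) := by ring
      _ ≤ K * (81 * P) * (A * D) := Nat.mul_le_mul (Nat.mul_le_mul_left _ hp) ih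

/-- The middle binomial coefficient of `16 t` against the one at a quarter. -/
theorem middle (t : ℕ) : 7 ^ t * (16 * t).choose (4 * t) ≤ (16 * t).choose (8 * t) := by
  have h1 := Nat.choose_mul_factorial_mul_factorial (n := 16 * t) (k := 4 * t) (by omega)
  have h2 := Nat.choose_mul_factorial_mul_factorial (n := 16 * t) (k := 8 * t) (by omega)
  have e1 : 16 * t - 4 * t = 12 * t := by omega
  have e2 : 16 * t - 8 * t = 8 * t := by omega
  rw [e1] at h1
  rw [e2] at h2
  have h3 := fact_ineq t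
  set a := (16 * t).choose (4 * t)
  set b := (16 * t).choose (8 * t)
  set A := (4 * t).factorial
  set B := (8 * t).factorial
  set D := (12 * t).factorial
  set F := (16 * t).factorial
  have hAD : 0 < A * D := Nat.mul_pos (Nat.factorial_pos _) (Nat.factorial_pos _)
  apply Nat.le_of_mul_le_mul_left _ hAD
  calc A * D * (7 ^ t * a) = 7 ^ t * (a * A * D) := by ring
    _ = 7 ^ t * (b * B * B) := by rw [h1, ← h2]
    _ = (7 ^ t * B ^ 2) * b := by ring
    _ ≤ A * D * b := Nat.mul_le_mul_right _ h3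

/-- The Frankl-Wilson bound against the size of the middle layer, `q = 4 t`. -/
theorem fw_ratio (t : ℕ) (ht : 1 ≤ t) :
    2 * 7 ^ t * (2 * (16 * t - 1).choose (4 * t - 1)) ≤ (16 * t).choose (8 * t) := by
  have h1 := middle t
  have h2 := Nat.add_one_mul_choose_eq (16 * t - 1) (4 * t - 1)
  have e1 : 16 * t - 1 + 1 = 16 * t := by omega
  have e2 : 4 * t - 1 + 1 = 4 * t := by omega
  rw [e1, e2] at h2
  have h3 : 4 * (16 * t - 1).choose (4 * t - 1) = (16 * t).choose (4 * t) := by
    have h4 : (4 * (16 * t - 1).choose (4 * t - 1)) * (4 * t) = (16 * t).choose (4 * t) * (4 * t) := by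
      rw [← h2]; ring
    exact Nat.eq_of_mul_eq_mul_right (by omega) h4
  calc 2 * 7 ^ t * (2 * (16 * t - 1).choose (4 * t - 1))
      = 7 ^ t * (4 * (16 * t - 1).choose (4 * t - 1)) := by ring
    _ = 7 ^ t * (16 * t).choose (4 * t) := by rw [h3]
    _ ≤ (16 * t).choose (8 * t) := h1

end Pool.Dia50d
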