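import Mathlib

/-!
MP_d16438_co, PolynomialLower: balanced maps, counting over permutations, the doubling step.
-/

set_option autoImplicit false

namespace Pool.Dia50d

open Finset

/-- All fibres have the same size. -/
def Bal {α β : Type} [Fintype α] [Fintype β] [DecidableEq β] (f : α → β) : Prop :=
  ∀ b, (univ.filter (fun a => f a = b)).card * Fintype.card β = Fintype.card α

section perm

variable {α β : Type} [Fintype α] [DecidableEq α] [Fintype β] [DecidableEq β]

theorem bal_card (f g : α → β) (hf : Bal f) (hg : Bal g) (b : β) :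
    (univ.filter (fun a => f a = b)).card = (univ.filter (fun a => g a = b)).card := by
  have h1 := hf b
  have h2 := hg b
  have h3 : 0 < Fintype.card β := Fintype.card_pos_iff.2 ⟨b⟩
  exact Nat.eq_of_mul_eq_mul_right h3 (h1.trans h2.symm)

theorem exists_perm (f g : α → β) (hf : Bal f) (hg : Bal g) :
    ∃ τ : Equiv.Perm α, ∀ a, f (τ a) = g a := by
  have h1 : ∀ b, Nonempty ({a // g a = b} ≃ {a // f a = b}) := by
    intro b
    apply Fintype.card_eq.1
    rw [Fintype.card_subtype, Fintype.card_subtype]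
    exact bal_card g f hg hf b
  have e := fun b => (h1 b).some
  refine ⟨(Equiv.sigmaFiberEquiv g).symm.trans
    ((Equiv.sigmaCongrRight e).trans (Equiv.sigmaFiberEquiv f)), fun a => ?_⟩
  simp only [Equiv.trans_apply, Equiv.sigmaFiberEquiv, Equiv.coe_fn_symm_mk, Equiv.coe_fn_mk,
    Equiv.sigmaCongrRight_apply, Sigma.map]
  exact (e (g a) ⟨a, rfl⟩).2

open Classical in
/-- The number of permutations carrying `f` into `Φ`. -/
noncomputable def cnt (Φ : (α → β) → Prop) (f : α → β) : ℕ :=
  (univ.filter (fun σ : Equiv.Perm α => Φ (fun a => f (σ a)))).card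

theorem cnt_eq (Φ : (α → β) → Prop) (f g : α → β) (hf : Bal f) (hg : Bal g) :
    cnt Φ f = cnt Φ g := by
  classical
  obtain ⟨τ, hτ⟩ := exists_perm f g hf hg
  unfold cnt
  apply Finset.card_bij (fun σ _ => σ.trans τ.symm)
  · intro σ hσ
    rw [Finset.mem_filter] at hσ ⊢
    refine ⟨Finset.mem_univ _, ?_⟩
    have : (fun a => g ((σ.trans τ.symm) a)) = fun a => f (σ a) := by
      funext a
      rw [← hτ]; simp
    rw [this]; exact hσ.2
  · intro σ _ σ' _ h
    ext a
    have := congrArg (fun e : Equiv.Perm α => τ (e a)) h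
    simpa using this
  · intro σ hσ
    refine ⟨σ.trans τ, ?_, ?_⟩
    · rw [Finset.mem_filter] at hσ ⊢
      refine ⟨Finset.mem_univ _, ?_⟩
      have : (fun a => f ((σ.trans τ) a)) = fun a => g (σ a) := by
        funext a
        rw [Equiv.trans_apply, hτ]
      rw [this]; exact hσ.2
    · ext a; simp

end perm

/-- Balanced maps exist. -/
theorem exists_bal (n k : ℕ) (β : Type) [Fintype β] [DecidableEq β]
    (h : n = k * Fintype.card β) : ∃ f : Fin n → β, Bal f := by
  classical
  have e : Nonempty (Fin n ≃ Fin k × β) := by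
    apply Fintype.card_eq.1
    rw [Fintype.card_prod, Fintype.card_fin, Fintype.card_fin, h]
  obtain ⟨e⟩ := e
  refine ⟨fun i => (e i).2, fun b => ?_⟩
  have h1 : (univ.filter (fun a => (e a).2 = b)).card = k := by
    have : (univ.filter (fun a => (e a).2 = b)).card = (univ : Finset (Fin k)).card := by
      symm
      apply Finset.card_bij (fun j _ => e.symm (j, b))
      · intro j _
        simp
      · intro j _ j' _ hj
        have := e.symm.injective hj
        exact (Prod.ext_iff.1 this).1
      · intro a ha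
        rw [Finset.mem_filter] at ha
        refine ⟨(e a).1, Finset.mem_univ _, ?_⟩
        rw [← ha.2]; simp
    rw [this, Finset.card_univ, Fintype.card_fin]
  rw [h1, Fintype.card_fin, h]

/-- Composition: if `(p, π)` and `x` are balanced so is `(x ∘ π, p)`. -/
theorem bal_comp {α A B D : Type} [Fintype α] [Fintype A] [DecidableEq A] [Fintype B]
    [DecidableEq B] [Fintype D] [DecidableEq D] [Nonempty A] (p : α → A) (π : α → B) (x : B → D)
    (h : Bal (fun a => (p a, π a))) (hx : Bal x) : Bal (fun a => (x (π a), p a)) := by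
  classical
  rintro ⟨d, a0⟩
  have h1 : (univ.filter (fun a => (x (π a), p a) = (d, a0))).card
      = ∑ b ∈ univ.filter (fun b => x b = d), (univ.filter (fun a => (p a, π a) = (a0, b))).card := by
    rw [Finset.card_eq_sum_card_fiberwise (f := π) (t := univ.filter (fun b => x b = d))]
    · apply Finset.sum_congr rfl
      intro b hb
      rw [Finset.mem_filter] at hb
      congr 1
      ext a
      simp only [Finset.mem_filter, Finset.mem_univ, true_and, Prod.mk.injEq]
      constructor
      · rintro ⟨⟨_, h2⟩, h3⟩; exact ⟨h2, h3⟩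
      · rintro ⟨h2, h3⟩
        exact ⟨⟨by rw [h3]; exact hb.2, h2⟩, h3⟩
    · intro a ha
      simp only [Finset.coe_filter, Set.mem_ofPred_eq, Finset.mem_univ, true_and,
        Prod.mk.injEq] at ha ⊢
      exact ha.1
  rw [h1, Finset.sum_mul]
  have h2 : ∀ b, (univ.filter (fun a => (p a, π a) = (a0, b))).card * (Fintype.card A * Fintype.card B)
      = Fintype.card α := by
    intro b
    have := h (a0, b)
    rwa [Fintype.card_prod] at this
  have hA : 0 < Fintype.card A := Fintype.card_pos
  by_cases hB : IsEmpty B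
  · have hα : IsEmpty α := ⟨fun a => hB.elim (π a)⟩
    rw [Fintype.card_eq_zero (α := α)]
    apply Finset.sum_eq_zero
    intro b _
    exact hB.elim b
  · rw [not_isEmpty_iff] at hB
    have hBc : 0 < Fintype.card B := Fintype.card_pos
    apply Nat.eq_of_mul_eq_mul_right hBc
    rw [Finset.sum_mul]
    have h3 : ∀ b ∈ univ.filter (fun b => x b = d),
        (univ.filter (fun a => (p a, π a) = (a0, b))).card * Fintype.card (D × A) * Fintype.card B
        = Fintype.card D * Fintype.card α := by
      intro b _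
      rw [Fintype.card_prod, ← h2 b]; ring
    rw [Finset.sum_congr rfl h3, Finset.sum_const, smul_eq_mul, ← mul_assoc, hx d, mul_comm]

/-- The vectors of the cube spanned by `p` through `g`. -/
def vec {α : Type} {j : ℕ} (h : α → ZMod 2 × (Fin j → ZMod 2)) (s : Fin j → ZMod 2) : α → ZMod 2 :=
  fun a => (h a).1 + ∑ k, s k * (h a).2 k

/-- All vectors of the cube lie in `C`. -/
def Phi {α : Type} (j : ℕ) (C : Set (α → ZMod 2)) (h : α → ZMod 2 × (Fin j → ZMod 2)) : Prop :=
  ∀ s, vec h s ∈ C

theorem phi_join {α : Type} (j : ℕ) (C : Set (α → ZMod 2)) (g g' : α → ZMod 2)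
    (p : α → Fin j → ZMod 2) (h1 : Phi j C (fun a => (g a, p a)))
    (h2 : Phi j C (fun a => (g' a, p a))) :
    Phi (j + 1) C (fun a => (g a, Fin.cons (g a + g' a) (p a))) := by
  intro s
  have hs : s 0 = 0 ∨ s 0 = 1 := by
    have : ∀ x : ZMod 2, x = 0 ∨ x = 1 := by decide
    exact this _
  have hexp : vec (fun a => (g a, (Fin.cons (g a + g' a) (p a) : Fin (j + 1) → ZMod 2))) s
      = fun a => g a + (s 0 * (g a + g' a) + ∑ k : Fin j, s k.succ * p a k) := by
    funext a
    simp only [vec, Fin.sum_univ_succ, Fin.cons_zero, Fin.cons_succ]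
  rw [hexp]
  rcases hs with hs | hs
  · have h3 : (fun a => g a + ∑ k, s k.succ * p a k) ∈ C := h1 (fun k => s k.succ)
    rw [hs]
    simp only [zero_mul, zero_add]
    exact h3
  · have h3 : (fun a => g' a + ∑ k, s k.succ * p a k) ∈ C := h2 (fun k => s k.succ)
    rw [hs]
    have e : (fun a => g a + (1 * (g a + g' a) + ∑ k : Fin j, s k.succ * p a k))
        = fun a => g' a + ∑ k : Fin j, s k.succ * p a k := by
      funext a
      have : g a + g a = 0 := CharTwo.add_self_eq_zero _
      calc g a + (1 * (g a + g' a) + ∑ k : Fin j, s k.succ * p a k)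
          = (g a + g a) + g' a + ∑ k : Fin j, s k.succ * p a k := by ring
        _ = _ := by rw [this, zero_add]
    rw [e]
    exact h3

/-- From an orthogonal pair to a balanced map with one more coordinate. -/
theorem bal_pair {α A B : Type} [Fintype α] [Fintype A] [DecidableEq A] [Fintype B]
    [DecidableEq B] (p : α → A) (π : α → B) (x y : B → ZMod 2)
    (h : Bal (fun a => ((x (π a), y (π a)), p a))) :
    Bal (fun a => (x (π a), (x (π a) + y (π a), p a))) := by
  classical
  rintro ⟨u, v, a0⟩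
  have h1 := h ((u, u + v), a0)
  have h2 : (univ.filter (fun a => (x (π a), (x (π a) + y (π a), p a)) = (u, v, a0)))
      = univ.filter (fun a => ((x (π a), y (π a)), p a) = ((u, u + v), a0)) := by
    ext a
    simp only [Finset.mem_filter, Finset.mem_univ, true_and, Prod.mk.injEq]
    have key : ∀ a b u v : ZMod 2, (a = u ∧ a + b = v) ↔ (a = u ∧ b = u + v) := by decide
    have := key (x (π a)) (y (π a)) u v
    tauto
  rw [h2]
  have h3 : Fintype.card (ZMod 2 × ZMod 2 × A) = Fintype.card ((ZMod 2 × ZMod 2) × A) := by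
    simp only [Fintype.card_prod]; ring
  rw [h3]; exact h1

theorem bal_cons {α : Type} [Fintype α] {j : ℕ} (g u : α → ZMod 2) (p : α → Fin j → ZMod 2)
    (h : Bal (fun a => (g a, (u a, p a)))) :
    Bal (fun a => (g a, (Fin.cons (u a) (p a) : Fin (j + 1) → ZMod 2))) := by
  classical
  rintro ⟨b, c⟩
  have h1 := h (b, (c 0, Fin.tail c))
  have h2 : (univ.filter (fun a => (g a, (Fin.cons (u a) (p a) : Fin (j + 1) → ZMod 2)) = (b, c)))
      = univ.filter (fun a => (g a, (u a, p a)) = (b, (c 0, Fin.tail c))) := by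
    ext a
    simp only [Finset.mem_filter, Finset.mem_univ, true_and, Prod.mk.injEq]
    have : (Fin.cons (u a) (p a) : Fin (j + 1) → ZMod 2) = c ↔ (u a = c 0 ∧ p a = Fin.tail c) := by
      constructor
      · intro h; rw [← h]; exact ⟨rfl, (Fin.tail_cons (α := fun _ => ZMod 2) _ _).symm⟩
      · rintro ⟨h3, h4⟩; rw [h3, h4]; exact Fin.cons_self_tail c
    rw [this]
  rw [h2]
  have h3 : Fintype.card (ZMod 2 × (Fin (j + 1) → ZMod 2))
      = Fintype.card (ZMod 2 × ZMod 2 × (Fin j → ZMod 2)) := by
    simp only [Fintype.card_prod, Fintype.card_pi, Finset.prod_const, Finset.card_univ,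
      Fintype.card_fin, pow_succ]
    ring
  rw [h3]; exact h1

open Classical in
/-- Removing one point from each good pair. -/
theorem card_le_pairs {n' : ℕ} (X : Finset (Fin n' → ZMod 2)) (a : ℕ)
    (ha : ∀ B ⊆ X, (∀ x ∈ B, ∀ y ∈ B, ¬ Bal (fun i => (x i, y i))) → B.card ≤ a) :
    ∀ B : Finset (Fin n' → ZMod 2), B ⊆ X →
      B.card ≤ a + ((B ×ˢ B).filter (fun xy : (Fin n' → ZMod 2) × (Fin n' → ZMod 2) =>
        Bal (fun i => (xy.1 i, xy.2 i)))).card := by
  classical
  intro B
  induction hk : B.card using Nat.strong_induction_on generalizing B with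
  | _ k ih =>
    intro hB
    by_cases hc : k ≤ a
    · omega
    · have h3 : ¬ ∀ x ∈ B, ∀ y ∈ B, ¬ Bal (fun i => (x i, y i)) := fun h4 =>
        hc (by rw [← hk]; exact ha _ hB h4)
      push Not at h3
      obtain ⟨x, hx, y, hy, hxy⟩ := h3
      have h5 : (B.erase x).card = k - 1 := by rw [Finset.card_erase_of_mem hx, hk]
      have hkpos : 0 < k := by rw [← hk]; exact Finset.card_pos.2 ⟨x, hx⟩
      have h6 := ih (k - 1) (by omega) (B.erase x) h5 ((Finset.erase_subset _ _).trans hB)
      have h7 : (((B.erase x) ×ˢ (B.erase x)).filter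
          (fun xy : (Fin n' → ZMod 2) × (Fin n' → ZMod 2) =>
            Bal (fun i => (xy.1 i, xy.2 i)))).card <
          ((B ×ˢ B).filter (fun xy : (Fin n' → ZMod 2) × (Fin n' → ZMod 2) =>
            Bal (fun i => (xy.1 i, xy.2 i)))).card := by
        apply Finset.card_lt_card
        rw [Finset.ssubset_iff_of_subset]
        · refine ⟨(x, y), Finset.mem_filter.2 ⟨Finset.mem_product.2 ⟨hx, hy⟩, hxy⟩, ?_⟩
          intro h8
          have h9 := (Finset.mem_product.1 (Finset.mem_filter.1 h8).1).1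
          exact (Finset.mem_erase.1 h9).1 rfl
        · apply Finset.filter_subset_filter
          exact Finset.product_subset_product (Finset.erase_subset _ _) (Finset.erase_subset _ _)
      omega

/-- **The doubling step.** -/
theorem step {n n' j a : ℕ} (C : Set (Fin n → ZMod 2)) (X : Finset (Fin n' → ZMod 2))
    (hX : ∀ x ∈ X, Bal x)
    (ha : ∀ B ⊆ X, (∀ x ∈ B, ∀ y ∈ B, ¬ Bal (fun i => (x i, y i))) → B.card ≤ a)
    (h : Fin n → ZMod 2 × (Fin j → ZMod 2)) (hh : Bal h)
    (h' : Fin n → ZMod 2 × (Fin (j + 1) → ZMod 2)) (hh' : Bal h')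
    (p : Fin n → Fin j → ZMod 2) (π : Fin n → Fin n') (hf : Bal (fun i => (p i, π i))) :
    X.card * cnt (Phi j C) h ≤ a * n.factorial + X.card ^ 2 * cnt (Phi (j + 1) C) h' := by
  classical
  -- the maps `h_x`
  have hbx : ∀ x ∈ X, Bal (fun i => (x (π i), p i)) := fun x hx => bal_comp p π x hf (hX x hx)
  set B : Equiv.Perm (Fin n) → Finset (Fin n' → ZMod 2) := fun σ =>
    X.filter (fun x => Phi j C (fun i => (x (π (σ i)), p (σ i)))) with hB
  set Pr : Equiv.Perm (Fin n) → Finset ((Fin n' → ZMod 2) × (Fin n' → ZMod 2)) := fun σ =>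
    (X ×ˢ X).filter (fun xy => Bal (fun i => (xy.1 i, xy.2 i)) ∧
      xy.1 ∈ B σ ∧ xy.2 ∈ B σ) with hPr
  have hsum : ∑ σ : Equiv.Perm (Fin n), (B σ).card = X.card * cnt (Phi j C) h := by
    have h1 : ∀ σ, (B σ).card = ∑ x ∈ X, if Phi j C (fun i => (x (π (σ i)), p (σ i))) then 1 else 0 := by
      intro σ
      rw [hB, Finset.card_filter]
    rw [Finset.sum_congr rfl (fun σ _ => h1 σ), Finset.sum_comm]
    have h2 : ∀ x ∈ X, (∑ σ : Equiv.Perm (Fin n),
        if Phi j C (fun i => (x (π (σ i)), p (σ i))) then 1 else 0) = cnt (Phi j C) h := by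
      intro x hx
      rw [← cnt_eq (Phi j C) (fun i => (x (π i), p i)) h (hbx x hx) hh]
      unfold cnt
      rw [Finset.card_filter]
    rw [Finset.sum_congr rfl h2, Finset.sum_const, smul_eq_mul]
  have hpairs : ∑ σ : Equiv.Perm (Fin n), (Pr σ).card ≤ X.card ^ 2 * cnt (Phi (j + 1) C) h' := by
    have h1 : ∀ σ, (Pr σ).card = ∑ xy ∈ X ×ˢ X,
        if (Bal (fun i => (xy.1 i, xy.2 i)) ∧ xy.1 ∈ B σ ∧ xy.2 ∈ B σ) then 1 else 0 := by
      intro σ
      rw [hPr, Finset.card_filter]
    rw [Finset.sum_congr rfl (fun σ _ => h1 σ), Finset.sum_comm]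
    have h2 : ∀ xy ∈ X ×ˢ X, (∑ σ : Equiv.Perm (Fin n),
        if (Bal (fun i => (xy.1 i, xy.2 i)) ∧ xy.1 ∈ B σ ∧ xy.2 ∈ B σ) then 1 else 0)
        ≤ cnt (Phi (j + 1) C) h' := by
      rintro ⟨x, y⟩ hxy
      rw [Finset.mem_product] at hxy
      rw [← Finset.card_filter]
      by_cases hb : Bal (fun i => (x i, y i))
      · -- the joint map
        have hb1 : Bal (fun i => ((x (π i), y (π i)), p i)) :=
          bal_comp p π (fun b => (x b, y b)) hf hb
        have hb2 := bal_cons _ _ _ (bal_pair p π x y hb1)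
        rw [← cnt_eq (Phi (j + 1) C) _ h' hb2 hh']
        unfold cnt
        apply Finset.card_le_card
        intro σ hσ
        rw [Finset.mem_filter] at hσ ⊢
        refine ⟨Finset.mem_univ _, ?_⟩
        have h3 := (Finset.mem_filter.1 hσ.2.2.1).2
        have h4 := (Finset.mem_filter.1 hσ.2.2.2).2
        exact phi_join j C (fun i => x (π (σ i))) (fun i => y (π (σ i))) (fun i => p (σ i)) h3 h4
      · rw [Finset.filter_false_of_mem]
        · simp
        · intro σ _ h3
          exact hb h3.1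
    calc ∑ xy ∈ X ×ˢ X, (∑ σ : Equiv.Perm (Fin n),
        if (Bal (fun i => (xy.1 i, xy.2 i)) ∧ xy.1 ∈ B σ ∧ xy.2 ∈ B σ) then 1 else 0)
        ≤ ∑ _xy ∈ X ×ˢ X, cnt (Phi (j + 1) C) h' := Finset.sum_le_sum h2
      _ = X.card ^ 2 * cnt (Phi (j + 1) C) h' := by
          rw [Finset.sum_const, Finset.card_product, smul_eq_mul]; ring
  have hone : ∀ σ, (B σ).card ≤ a + (Pr σ).card := by
    intro σ
    have hsub : B σ ⊆ X := Finset.filter_subset _ _
    refine (card_le_pairs X a ha (B σ) hsub).trans (Nat.add_le_add_left ?_ _)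
    apply Finset.card_le_card
    intro xy hxy
    rw [Finset.mem_filter, Finset.mem_product] at hxy
    exact Finset.mem_filter.2 ⟨Finset.mem_product.2 ⟨hsub hxy.1.1, hsub hxy.1.2⟩,
      hxy.2, hxy.1.1, hxy.1.2⟩
  calc X.card * cnt (Phi j C) h = ∑ σ : Equiv.Perm (Fin n), (B σ).card := hsum.symm
    _ ≤ ∑ σ : Equiv.Perm (Fin n), (a + (Pr σ).card) := Finset.sum_le_sum (fun σ _ => hone σ)
    _ = a * n.factorial + ∑ σ : Equiv.Perm (Fin n), (Pr σ).card := by
        rw [Finset.sum_add_distrib, Finset.sum_const, Finset.card_univ, Fintype.card_perm,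
          Fintype.card_fin, smul_eq_mul, mul_comm]
    _ ≤ a * n.factorial + X.card ^ 2 * cnt (Phi (j + 1) C) h' :=
        Nat.add_le_add_left hpairs _

end Pool.Dia50d
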