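import Mathlib
import Pool.Agent.Dia50d.FW
import Pool.Agent.Dia50d.Rec

/-!
MP_d16438_co, PolynomialLower: iteration of the doubling step.
-/

set_option autoImplicit false

namespace Pool.Dia50d

open Finset

/-- The support of a vector. -/
def supp {n : ℕ} (x : Fin n → ZMod 2) : Finset (Fin n) := univ.filter (fun i => x i = 1)

theorem zmod2_cases (x : ZMod 2) : x = 0 ∨ x = 1 := by
  revert x; decide

theorem supp_inj {n : ℕ} (x y : Fin n → ZMod 2) (h : supp x = supp y) : x = y := by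
  funext i
  have h1 : i ∈ supp x ↔ i ∈ supp y := by rw [h]
  simp only [supp, Finset.mem_filter, Finset.mem_univ, true_and] at h1
  rcases zmod2_cases (x i) with hx | hx <;> rcases zmod2_cases (y i) with hy | hy
  · rw [hx, hy]
  · have := h1.2 hy; rw [hx] at this; exact absurd this (by decide)
  · have := h1.1 hx; rw [hy] at this; exact absurd this (by decide)
  · rw [hx, hy]

theorem bal_iff_supp {q : ℕ} (x : Fin (4 * q) → ZMod 2) : Bal x ↔ (supp x).card = 2 * q := by
  classical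
  have h0 := Finset.card_filter_add_card_filter_not (s := (univ : Finset (Fin (4 * q))))
    (p := fun i => x i = 1)
  have h1 : (univ.filter (fun i => ¬ x i = 1)) = univ.filter (fun i => x i = 0) := by
    ext i
    simp only [Finset.mem_filter, Finset.mem_univ, true_and]
    rcases zmod2_cases (x i) with hx | hx <;> simp [hx]
  rw [h1, Finset.card_univ, Fintype.card_fin] at h0
  unfold Bal supp
  rw [ZMod.card, Fintype.card_fin]
  constructor
  · intro h
    have := h 1
    omega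
  · intro h b
    rcases zmod2_cases b with hb | hb <;> rw [hb] <;> omega

theorem bal_pair_of_inter {q : ℕ} (x y : Fin (4 * q) → ZMod 2) (hx : Bal x) (hy : Bal y)
    (h : (supp x ∩ supp y).card = q) : Bal (fun i => (x i, y i)) := by
  classical
  rw [bal_iff_supp] at hx hy
  have key : ∀ (P Q : Fin (4 * q) → Prop) [DecidablePred P] [DecidablePred Q],
      (univ.filter (fun i => P i)).card = (univ.filter (fun i => P i ∧ Q i)).card
        + (univ.filter (fun i => P i ∧ ¬ Q i)).card := by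
    intro P Q _ _
    have := Finset.card_filter_add_card_filter_not (s := univ.filter (fun i => P i))
      (p := fun i => Q i)
    rw [Finset.filter_filter, Finset.filter_filter] at this
    exact this.symm
  have hn : ∀ z : Fin (4 * q) → ZMod 2, ∀ i, (¬ z i = 1) ↔ z i = 0 := by
    intro z i
    rcases zmod2_cases (z i) with hz | hz <;> simp [hz]
  have h11 : (univ.filter (fun i => x i = 1 ∧ y i = 1)).card = q := by
    refine Eq.trans ?_ h
    congr 1
    ext i
    simp [supp]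
  have hx1 : (univ.filter (fun i => x i = 1)).card = 2 * q := hx
  have hy1 : (univ.filter (fun i => y i = 1)).card = 2 * q := hy
  have k1 := key (fun i => x i = 1) (fun i => y i = 1)
  have k2 := key (fun i => y i = 1) (fun i => x i = 1)
  have k3 := key (fun i => x i = 0) (fun i => y i = 1)
  have k0 := Finset.card_filter_add_card_filter_not (s := (univ : Finset (Fin (4 * q))))
    (p := fun i => x i = 1)
  simp only [hn] at k1 k2 k3 k0
  rw [Finset.card_univ, Fintype.card_fin] at k0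
  have hsw1 : (univ.filter (fun i => y i = 1 ∧ x i = 1)).card
      = (univ.filter (fun i => x i = 1 ∧ y i = 1)).card := by
    congr 1; ext i; simp [and_comm]
  have hsw2 : (univ.filter (fun i => y i = 1 ∧ x i = 0)).card
      = (univ.filter (fun i => x i = 0 ∧ y i = 1)).card := by
    congr 1; ext i; simp [and_comm]
  rw [hsw1, hsw2] at k2
  rintro ⟨b, c⟩
  have hpair : (univ.filter (fun i => (x i, y i) = (b, c)))
      = univ.filter (fun i => x i = b ∧ y i = c) := by
    ext i; simp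
  rw [hpair, Fintype.card_prod, ZMod.card, Fintype.card_fin]
  rcases zmod2_cases b with hb | hb <;> rcases zmod2_cases c with hc | hc <;>
    rw [hb, hc] <;> omega

open Classical in
/-- The balanced vectors. -/
noncomputable def Xs (n : ℕ) : Finset (Fin n → ZMod 2) := univ.filter (fun x => Bal x)

theorem card_Xs_le (n : ℕ) : (Xs n).card ≤ 2 ^ n := by
  classical
  refine (Finset.card_le_univ _).trans ?_
  rw [Fintype.card_pi]
  simp [ZMod.card]

theorem card_Xs_ge (q : ℕ) : (4 * q).choose (2 * q) ≤ (Xs (4 * q)).card := by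
  classical
  have h1 : (powersetCard (2 * q) (univ : Finset (Fin (4 * q)))).card = (4 * q).choose (2 * q) := by
    rw [Finset.card_powersetCard, Finset.card_univ, Fintype.card_fin]
  rw [← h1]
  have hs : ∀ A : Finset (Fin (4 * q)), supp (fun i => if i ∈ A then (1 : ZMod 2) else 0) = A := by
    intro A
    ext i
    simp only [supp, Finset.mem_filter, Finset.mem_univ, true_and]
    by_cases hi : i ∈ A <;> simp [hi]
  apply Finset.card_le_card_of_injOn (fun A i => if i ∈ A then (1 : ZMod 2) else 0)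
  · intro A hA
    rw [Finset.mem_coe, Finset.mem_powersetCard] at hA
    rw [Finset.mem_coe, Xs, Finset.mem_filter]
    refine ⟨Finset.mem_univ _, ?_⟩
    rw [bal_iff_supp, hs]
    exact hA.2
  · intro A _ B _ hAB
    have h2 := congrArg supp hAB
    rw [← hs A, ← hs B]
    exact h2

theorem fw_Xs (e : ℕ) (B : Finset (Fin (4 * 2 ^ e) → ZMod 2)) (hB : B ⊆ Xs (4 * 2 ^ e))
    (h : ∀ x ∈ B, ∀ y ∈ B, ¬ Bal (fun i => (x i, y i))) :
    B.card ≤ 2 * (4 * 2 ^ e - 1).choose (2 ^ e - 1) := by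
  classical
  have hbal : ∀ x ∈ B, Bal x := fun x hx => (Finset.mem_filter.1 (hB hx)).2
  have h1 : (B.image supp).card = B.card :=
    Finset.card_image_of_injOn (fun x _ y _ hxy => supp_inj x y hxy)
  rw [← h1]
  apply fw_bal
  · intro A hA
    obtain ⟨x, hx, rfl⟩ := Finset.mem_image.1 hA
    exact (bal_iff_supp x).1 (hbal x hx)
  · intro A hA A' hA' hc
    obtain ⟨x, hx, rfl⟩ := Finset.mem_image.1 hA
    obtain ⟨y, hy, rfl⟩ := Finset.mem_image.1 hA'
    exact h x hx y hy (bal_pair_of_inter x y (hbal x hx) (hbal y hy) hc)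

theorem num7 : 2 * 2 ^ 16 ≤ 7 ^ 7 := by norm_num

/-- One step of the chain. -/
theorem chain_step {N j e : ℕ} (C : Set (Fin (2 ^ N) → ZMod 2))
    (hjN : j + (e + 4) ≤ N)
    (h : Fin (2 ^ N) → ZMod 2 × (Fin j → ZMod 2)) (hh : Bal h)
    (h' : Fin (2 ^ N) → ZMod 2 × (Fin (j + 1) → ZMod 2)) (hh' : Bal h')
    (hc : (2 ^ N).factorial ≤ 7 ^ (2 ^ e) * cnt (Phi j C) h) :
    (2 ^ N).factorial ≤ 7 ^ (2 ^ (e + 3)) * cnt (Phi (j + 1) C) h' := by
  classical
  set t := 2 ^ e with ht
  have ht1 : 1 ≤ t := Nat.one_le_two_pow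
  have hq : 2 ^ (e + 2) = 4 * t := by rw [pow_add]; ring
  have h8 : 2 ^ (e + 3) = 8 * t := by rw [pow_add]; ring
  have h16 : 2 ^ (e + 4) = 16 * t := by rw [pow_add]; ring
  -- the balanced map
  have hcard : 2 ^ N = 2 ^ (N - (j + (e + 4))) *
      Fintype.card ((Fin j → ZMod 2) × Fin (4 * 2 ^ (e + 2))) := by
    rw [Fintype.card_prod, Fintype.card_pi, Fintype.card_fin]
    simp only [ZMod.card, Finset.prod_const, Finset.card_univ, Fintype.card_fin]
    have : 4 * 2 ^ (e + 2) = 2 ^ (e + 4) := by rw [hq, h16]; ring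
    rw [this, ← pow_add, ← pow_add]
    congr 1; omega
  obtain ⟨f, hf⟩ := exists_bal (2 ^ N) _ ((Fin j → ZMod 2) × Fin (4 * 2 ^ (e + 2))) hcard
  have hstep := step C (Xs (4 * 2 ^ (e + 2))) (fun x hx => (Finset.mem_filter.1 hx).2)
    (fun B hB hB2 => fw_Xs (e + 2) B hB hB2) h hh h' hh' (fun i => (f i).1) (fun i => (f i).2) hf
  set X := (Xs (4 * 2 ^ (e + 2))).card with hX
  set a := 2 * (4 * 2 ^ (e + 2) - 1).choose (2 ^ (e + 2) - 1) with ha
  have hXle : X ≤ 2 ^ (16 * t) := by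
    have := card_Xs_le (4 * 2 ^ (e + 2))
    rw [hq] at this
    have e1 : 4 * (4 * t) = 16 * t := by ring
    rw [e1] at this
    rw [hX, hq, e1]; exact this
  have hXge : (16 * t).choose (8 * t) ≤ X := by
    have := card_Xs_ge (2 ^ (e + 2))
    have e1 : 4 * 2 ^ (e + 2) = 16 * t := by rw [hq]; ring
    have e2 : 2 * 2 ^ (e + 2) = 8 * t := by rw [hq]; ring
    rw [← e1, ← e2]
    exact this
  have hXpos : 0 < X := lt_of_lt_of_le (Nat.choose_pos (by omega)) hXge
  have hratio : 2 * 7 ^ t * a ≤ X := by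
    have h1 := fw_ratio t ht1
    have e1 : 4 * 2 ^ (e + 2) - 1 = 16 * t - 1 := by rw [hq]; congr 1; ring
    rw [ha, e1, hq]
    exact h1.trans hXge
  set c := cnt (Phi j C) h with hcdef
  set c' := cnt (Phi (j + 1) C) h' with hc'def
  set F := (2 ^ N).factorial with hF
  -- combine
  have h1 : 2 * X * F ≤ X * F + 2 * 7 ^ t * X ^ 2 * c' := by
    calc 2 * X * F ≤ 2 * X * (7 ^ t * c) := Nat.mul_le_mul_left _ hc
      _ = 2 * 7 ^ t * (X * c) := by ring
      _ ≤ 2 * 7 ^ t * (a * F + X ^ 2 * c') := Nat.mul_le_mul_left _ hstep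
      _ = (2 * 7 ^ t * a) * F + 2 * 7 ^ t * X ^ 2 * c' := by ring
      _ ≤ X * F + 2 * 7 ^ t * X ^ 2 * c' :=
          Nat.add_le_add_right (Nat.mul_le_mul_right _ hratio) _
  have h2 : X * F ≤ X * (2 * 7 ^ t * X * c') := by
    have e1 : 2 * X * F = X * F + X * F := by ring
    have e2 : 2 * 7 ^ t * X ^ 2 * c' = X * (2 * 7 ^ t * X * c') := by ring
    rw [e1, e2] at h1
    omega
  have h3 : F ≤ 2 * 7 ^ t * X * c' := Nat.le_of_mul_le_mul_left h2 hXpos
  have h4 : 2 * 2 ^ (16 * t) ≤ 7 ^ (7 * t) := by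
    rw [pow_mul, pow_mul]
    obtain ⟨t', ht'⟩ : ∃ t', t = t' + 1 := ⟨t - 1, by omega⟩
    rw [ht', pow_succ, pow_succ]
    calc 2 * ((2 ^ 16) ^ t' * 2 ^ 16) = (2 ^ 16) ^ t' * (2 * 2 ^ 16) := by ring
      _ ≤ (7 ^ 7) ^ t' * 7 ^ 7 :=
          Nat.mul_le_mul (Nat.pow_le_pow_left (by norm_num) _) num7
  rw [h8]
  calc F ≤ 2 * 7 ^ t * X * c' := h3
    _ ≤ 2 * 7 ^ t * 2 ^ (16 * t) * c' :=
        Nat.mul_le_mul_right _ (Nat.mul_le_mul_left _ hXle)
    _ = (2 * 2 ^ (16 * t)) * (7 ^ t * c') := by ring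
    _ ≤ 7 ^ (7 * t) * (7 ^ t * c') := Nat.mul_le_mul_right _ h4
    _ = 7 ^ (8 * t) * c' := by
        rw [show 8 * t = 7 * t + t by ring, pow_add]; ring

theorem exists_h (N j : ℕ) (hj : j + 1 ≤ N) :
    ∃ h : Fin (2 ^ N) → ZMod 2 × (Fin j → ZMod 2), Bal h := by
  apply exists_bal (2 ^ N) (2 ^ (N - (j + 1)))
  rw [Fintype.card_prod, Fintype.card_pi]
  simp only [ZMod.card, Finset.prod_const, Finset.card_univ, Fintype.card_fin]
  have : 2 * 2 ^ j = 2 ^ (j + 1) := by rw [pow_succ]; ring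
  rw [this, ← pow_add]
  congr 1; omega

/-- The chain. -/
theorem chain {N e : ℕ} (C : Set (Fin (2 ^ N) → ZMod 2)) (m : ℕ)
    (hN : 4 * m + e ≤ N) (h0 : Fin (2 ^ N) → ZMod 2 × (Fin 0 → ZMod 2)) (hh0 : Bal h0)
    (hc : (2 ^ N).factorial ≤ 7 ^ (2 ^ e) * cnt (Phi 0 C) h0) :
    ∃ h : Fin (2 ^ N) → ZMod 2 × (Fin m → ZMod 2), Bal h ∧ 0 < cnt (Phi m C) h := by
  have key : ∀ j ≤ m, ∃ h : Fin (2 ^ N) → ZMod 2 × (Fin j → ZMod 2), Bal h ∧
      (2 ^ N).factorial ≤ 7 ^ (2 ^ (e + 3 * j)) * cnt (Phi j C) h := by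
    intro j
    induction j with
    | zero => intro _; exact ⟨h0, hh0, by simpa using hc⟩
    | succ j ih =>
      intro hj
      obtain ⟨h, hh, hle⟩ := ih (by omega)
      obtain ⟨h', hh'⟩ := exists_h N (j + 1) (by omega)
      refine ⟨h', hh', ?_⟩
      have := chain_step C (e := e + 3 * j) (by omega) h hh h' hh' hle
      have e1 : e + 3 * (j + 1) = e + 3 * j + 3 := by ring
      rw [e1]; exact this
  obtain ⟨h, hh, hle⟩ := key m le_rfl
  refine ⟨h, hh, ?_⟩
  by_contra hcon
  have : cnt (Phi m C) h = 0 := by omega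
  rw [this, mul_zero] at hle
  have h1 : 0 < (2 ^ N).factorial := Nat.factorial_pos _
  omega

end Pool.Dia50d
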