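import Mathlib
import Pool.Agent.Dia50d.Chain
import Pool.Agent.Dia50b.Main

/-!
MP_d16438_co, PolynomialLower: tensor squares of the vectors of signs.
-/

set_option autoImplicit false

namespace Pool.Dia50d

open Finset Pool.Dia50b

/-- The sign. -/
noncomputable def sg (x : ZMod 2) : ℝ := if x = 0 then 1 else -1

theorem sg_zero : sg 0 = 1 := by simp [sg]

theorem sg_one : sg 1 = -1 := by simp [sg]

theorem sg_add (x y : ZMod 2) : sg (x + y) = sg x * sg y := by
  have h11 : (1 : ZMod 2) + 1 = 0 := by decide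
  rcases zmod2_cases x with hx | hx <;> rcases zmod2_cases y with hy | hy <;>
    rw [hx, hy] <;> simp [sg_zero, sg_one, h11]

theorem sg_le (x : ZMod 2) : sg x ≤ 1 := by
  rcases zmod2_cases x with hx | hx <;> rw [hx] <;> simp [sg_zero, sg_one]

theorem sg_ge (x : ZMod 2) : -1 ≤ sg x := by
  rcases zmod2_cases x with hx | hx <;> rw [hx] <;> simp [sg_zero, sg_one]

/-- The inner product of the vectors of signs. -/
noncomputable def Sc {n : ℕ} (x y : Fin n → ZMod 2) : ℝ := ∑ i, sg (x i) * sg (y i)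

theorem Sc_self {n : ℕ} (x : Fin n → ZMod 2) : Sc x x = n := by
  unfold Sc
  have : ∀ i, sg (x i) * sg (x i) = 1 := by
    intro i
    rw [← sg_add, CharTwo.add_self_eq_zero, sg_zero]
  rw [Finset.sum_congr rfl (fun i _ => this i)]
  simp

theorem Sc_le {n : ℕ} (x y : Fin n → ZMod 2) (i : Fin n) (h : x i ≠ y i) : Sc x y < n := by
  unfold Sc
  have h1 : (n : ℝ) = ∑ _i : Fin n, (1 : ℝ) := by simp
  rw [h1]
  apply Finset.sum_lt_sum
  · intro k _
    rw [← sg_add]; exact sg_le _
  · refine ⟨i, Finset.mem_univ _, ?_⟩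
    rw [← sg_add]
    have : x i + y i = 1 := by
      rcases zmod2_cases (x i) with hx | hx <;> rcases zmod2_cases (y i) with hy | hy <;>
        rw [hx, hy] at h ⊢ <;> first | exact absurd rfl h | decide
    rw [this, sg_one]; norm_num

theorem Sc_ge {n : ℕ} (x y : Fin n → ZMod 2) (i : Fin n) (h : x i = y i) : -(n : ℝ) < Sc x y := by
  unfold Sc
  have h1 : -(n : ℝ) = ∑ _i : Fin n, (-1 : ℝ) := by simp
  rw [h1]
  apply Finset.sum_lt_sum
  · intro k _
    rw [← sg_add]; exact sg_ge _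
  · refine ⟨i, Finset.mem_univ _, ?_⟩
    rw [← sg_add, h, CharTwo.add_self_eq_zero, sg_zero]; norm_num

/-- The tensor square of the unit vector of signs. -/
noncomputable def vt (n : ℕ) (x : Fin n → ZMod 2) : Fin n × Fin n → ℝ :=
  fun p => (1 / (n : ℝ)) * (sg (x p.1) * sg (x p.2))

theorem ip_vt (n : ℕ) (x y : Fin n → ZMod 2) : ip (vt n x) (vt n y) = (Sc x y / n) ^ 2 := by
  unfold ip vt Sc
  rw [Fintype.sum_prod_type]
  have h1 : ∀ i k : Fin n, (1 / (n : ℝ)) * (sg (x i) * sg (x k)) * ((1 / (n : ℝ)) * (sg (y i) * sg (y k)))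
      = (1 / (n : ℝ)) ^ 2 * ((sg (x i) * sg (y i)) * (sg (x k) * sg (y k))) := by
    intro i k; ring
  simp only [h1]
  have h2 : ((∑ i, sg (x i) * sg (y i)) / (n : ℝ)) ^ 2
      = (1 / (n : ℝ)) ^ 2 * ((∑ i, sg (x i) * sg (y i)) * ∑ i, sg (x i) * sg (y i)) := by ring
  rw [h2, Finset.sum_mul_sum, Finset.mul_sum]
  apply Finset.sum_congr rfl
  intro i _
  rw [Finset.mul_sum]

/-- The vectors with first coordinate zero. -/
def UU (n : ℕ) (i0 : Fin n) : Finset (Fin n → ZMod 2) := univ.filter (fun x => x i0 = 0)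

theorem model_vt (n : ℕ) (i0 : Fin n) : Model (UU n i0) (vt n) := by
  have hn : (0 : ℝ) < n := by
    have := i0.pos
    exact_mod_cast this
  refine ⟨?_, ?_, ?_⟩
  · intro x _ y _
    rw [ip_vt]; exact sq_nonneg _
  · intro x _
    rw [ip_vt, Sc_self, div_self hn.ne']; norm_num
  · intro x hx y hy hxy
    rw [ip_vt, sq_lt_one_iff_abs_lt_one, abs_lt]
    have hx0 : x i0 = 0 := (Finset.mem_filter.1 hx).2
    have hy0 : y i0 = 0 := (Finset.mem_filter.1 hy).2
    obtain ⟨i, hi⟩ : ∃ i, x i ≠ y i := by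
      by_contra hcon
      push Not at hcon
      exact hxy (funext hcon)
    constructor
    · rw [lt_div_iff₀ hn]
      have := Sc_ge x y i0 (by rw [hx0, hy0])
      linarith
    · rw [div_lt_one hn]
      exact Sc_le x y i hi

theorem og_iff (n : ℕ) (hn : 0 < n) (x y : Fin n → ZMod 2) : Og (vt n) x y ↔ Sc x y = 0 := by
  unfold Og
  rw [ip_vt]
  have : (n : ℝ) ≠ 0 := by exact_mod_cast hn.ne'
  rw [sq_eq_zero_iff, div_eq_zero_iff]
  constructor
  · rintro (h | h)
    · exact h
    · exact absurd h this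
  · intro h; left; exact h

/-- Sums over balanced maps. -/
theorem bal_sum {α β : Type} [Fintype α] [Fintype β] [DecidableEq β] (f : α → β) (hf : Bal f)
    (g : β → ℝ) (hg : ∑ b, g b = 0) : ∑ a, g (f a) = 0 := by
  classical
  have h1 : ∑ a, g (f a) = ∑ b, ((univ.filter (fun a => f a = b)).card : ℝ) * g b := by
    rw [← Finset.sum_fiberwise (s := (univ : Finset α)) (g := f)]
    apply Finset.sum_congr rfl
    intro b _
    rw [← nsmul_eq_mul, ← Finset.sum_const]
    apply Finset.sum_congr rfl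
    intro a ha
    rw [(Finset.mem_filter.1 ha).2]
  by_cases hB : IsEmpty β
  · rw [h1]
    apply Finset.sum_eq_zero
    intro b _
    exact hB.elim b
  · rw [not_isEmpty_iff] at hB
    have hBc : (0 : ℝ) < Fintype.card β := by exact_mod_cast Fintype.card_pos
    have h2 : (∑ a, g (f a)) * Fintype.card β = 0 := by
      rw [h1, Finset.sum_mul]
      have h3 : ∀ b, ((univ.filter (fun a => f a = b)).card : ℝ) * g b * Fintype.card β
          = (Fintype.card α : ℝ) * g b := by
        intro b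
        have := hf b
        have h4 : ((univ.filter (fun a => f a = b)).card : ℝ) * Fintype.card β = Fintype.card α := by
          exact_mod_cast this
        rw [← h4]; ring
      rw [Finset.sum_congr rfl (fun b _ => h3 b), ← Finset.mul_sum, hg, mul_zero]
    rcases mul_eq_zero.1 h2 with h | h
    · exact h
    · exact absurd h hBc.ne'

theorem zmod2_ne (x y : ZMod 2) (h : x ≠ y) : x + y = 1 := by
  revert x y; decide

/-- The linear form of a pair of vectors of the cube. -/
def lf {m : ℕ} (u : Fin m → ZMod 2) (b : ZMod 2 × (Fin m → ZMod 2)) : ZMod 2 := ∑ l, u l * b.2 l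

theorem lf_add {m : ℕ} (u : Fin m → ZMod 2) (k : Fin m) (hk : u k = 1)
    (b : ZMod 2 × (Fin m → ZMod 2)) : lf u (b + (0, Pi.single k 1)) = lf u b + 1 := by
  unfold lf
  have e0 : ∀ l, (b + (0, Pi.single k 1)).2 l = b.2 l + (Pi.single k 1 : Fin m → ZMod 2) l := by
    intro l
    rw [Prod.snd_add, Pi.add_apply]
  simp only [e0, mul_add, Finset.sum_add_distrib]
  congr 1
  rw [Finset.sum_eq_single k]
  · rw [Pi.single_eq_same, hk, mul_one]
  · intro l _ hl
    rw [Pi.single_eq_of_ne hl, mul_zero]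
  · intro h; exact absurd (Finset.mem_univ _) h

theorem lf_sum {m : ℕ} (u : Fin m → ZMod 2) (k : Fin m) (hk : u k = 1) :
    ∑ b : ZMod 2 × (Fin m → ZMod 2), sg (lf u b) = 0 := by
  have h2 : ∀ b : ZMod 2 × (Fin m → ZMod 2), sg (lf u (b + (0, Pi.single k 1))) = - sg (lf u b) := by
    intro b
    rw [lf_add u k hk, sg_add, sg_one]; ring
  have h4 : ∑ b : ZMod 2 × (Fin m → ZMod 2), sg (lf u (b + (0, Pi.single k 1)))
      = ∑ b : ZMod 2 × (Fin m → ZMod 2), sg (lf u b) :=
    Equiv.sum_comp (Equiv.addRight ((0, Pi.single k 1) : ZMod 2 × (Fin m → ZMod 2)))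
      (fun b => sg (lf u b))
  rw [Finset.sum_congr rfl (fun b _ => h2 b), Finset.sum_neg_distrib] at h4
  linarith

theorem vec_add {n m : ℕ} (h : Fin n → ZMod 2 × (Fin m → ZMod 2)) (s s' : Fin m → ZMod 2)
    (i : Fin n) : vec h s i + vec h s' i = lf (fun l => s l + s' l) (h i) := by
  unfold vec lf
  have e1 : ∑ l, (s l + s' l) * (h i).2 l = ∑ l, s l * (h i).2 l + ∑ l, s' l * (h i).2 l := by
    rw [← Finset.sum_add_distrib]
    apply Finset.sum_congr rfl
    intro l _; ring
  have e2 : (h i).1 + (h i).1 = 0 := CharTwo.add_self_eq_zero _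
  rw [e1]
  generalize ∑ l, s l * (h i).2 l = A
  generalize ∑ l, s' l * (h i).2 l = B
  calc (h i).1 + A + ((h i).1 + B) = ((h i).1 + (h i).1) + (A + B) := by ring
    _ = _ := by rw [e2, zero_add]

/-- Distinct vectors of the cube of a balanced map are orthogonal. -/
theorem Sc_vec {n m : ℕ} (h : Fin n → ZMod 2 × (Fin m → ZMod 2)) (hh : Bal h)
    (s s' : Fin m → ZMod 2) (hs : s ≠ s') : Sc (vec h s) (vec h s') = 0 := by
  obtain ⟨k, hk⟩ : ∃ k, s k ≠ s' k := by
    by_contra hcon
    push Not at hcon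
    exact hs (funext hcon)
  have h1 : ∀ i, sg (vec h s i) * sg (vec h s' i) = sg (lf (fun l => s l + s' l) (h i)) := by
    intro i
    rw [← sg_add, vec_add]
  unfold Sc
  rw [Finset.sum_congr rfl (fun i _ => h1 i)]
  exact bal_sum h hh (fun b => sg (lf (fun l => s l + s' l) b))
    (lf_sum (fun l => s l + s' l) k (zmod2_ne _ _ hk))

/-- The representative with first coordinate zero. -/
def rep {n : ℕ} (i0 : Fin n) (x : Fin n → ZMod 2) : Fin n → ZMod 2 := fun i => x i + x i0

theorem rep_mem {n : ℕ} (i0 : Fin n) (x : Fin n → ZMod 2) : rep i0 x ∈ UU n i0 := by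
  refine Finset.mem_filter.2 ⟨Finset.mem_univ _, ?_⟩
  exact CharTwo.add_self_eq_zero _

theorem Sc_rep {n : ℕ} (i0 : Fin n) (x y : Fin n → ZMod 2) (h : Sc x y = 0) :
    Sc (rep i0 x) (rep i0 y) = 0 := by
  have h1 : Sc (rep i0 x) (rep i0 y) = sg (x i0) * sg (y i0) * Sc x y := by
    unfold Sc rep
    rw [Finset.mul_sum]
    apply Finset.sum_congr rfl
    intro i _
    rw [sg_add, sg_add]; ring
  rw [h1, h, mul_zero]

theorem bal_perm {n m : ℕ} (h : Fin n → ZMod 2 × (Fin m → ZMod 2)) (hh : Bal h)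
    (σ : Equiv.Perm (Fin n)) : Bal (fun a => h (σ a)) := by
  classical
  intro b
  rw [← hh b]
  congr 1
  apply Finset.card_bij (fun a _ => σ a)
  · intro a ha
    exact Finset.mem_filter.2 ⟨Finset.mem_univ _, (Finset.mem_filter.1 ha).2⟩
  · intro a _ a' _ haa
    exact σ.injective haa
  · intro a ha
    refine ⟨σ.symm a, Finset.mem_filter.2 ⟨Finset.mem_univ _, ?_⟩, by simp⟩
    have := (Finset.mem_filter.1 ha).2
    simpa using this

/-- **No colouring with few colours.** -/
theorem no_col (N m e : ℕ) (hm : 1 ≤ m) (hN : 4 * m + e ≤ N) (i0 : Fin (2 ^ N)) (M : ℕ)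
    (hM : M ≤ 7 ^ (2 ^ e)) : ¬ ColOn (Og (vt (2 ^ N))) (UU (2 ^ N) i0) (2 ^ m) M := by
  classical
  rintro ⟨col, hcol, hno⟩
  obtain ⟨h0, hh0⟩ := exists_h N 0 (by omega)
  set C : ℕ → Set (Fin (2 ^ N) → ZMod 2) := fun c => {x | col (rep i0 x) = c} with hC
  -- some class is large
  have hlarge : ∃ c < M, (2 ^ N).factorial ≤ M * cnt (Phi 0 (C c)) h0 := by
    by_contra hcon
    push Not at hcon
    have h1 : (2 ^ N).factorial ≤ ∑ c ∈ range M, cnt (Phi 0 (C c)) h0 := by
      have h2 : (univ : Finset (Equiv.Perm (Fin (2 ^ N)))).card = (2 ^ N).factorial := by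
        rw [Finset.card_univ, Fintype.card_perm, Fintype.card_fin]
      rw [← h2]
      have h3 : (univ : Finset (Equiv.Perm (Fin (2 ^ N)))) ⊆ (range M).biUnion
          (fun c => univ.filter (fun σ : Equiv.Perm (Fin (2 ^ N)) =>
            Phi 0 (C c) (fun a => h0 (σ a)))) := by
        intro σ _
        rw [Finset.mem_biUnion]
        refine ⟨col (rep i0 (vec (fun a => h0 (σ a)) default)), ?_, ?_⟩
        · exact Finset.mem_range.2 (hcol _ (rep_mem i0 _))
        · refine Finset.mem_filter.2 ⟨Finset.mem_univ _, ?_⟩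
          intro s
          have : s = default := Subsingleton.elim _ _
          rw [this]
          rfl
      exact (Finset.card_le_card h3).trans Finset.card_biUnion_le
    have hMpos : 0 < M := lt_of_le_of_lt (Nat.zero_le _) (hcol _ (rep_mem i0 (fun _ => 0)))
    have h4 : ∑ c ∈ range M, M * cnt (Phi 0 (C c)) h0 < ∑ _c ∈ range M, (2 ^ N).factorial := by
      apply Finset.sum_lt_sum_of_nonempty (Finset.nonempty_range_iff.2 hMpos.ne')
      intro c hc
      exact hcon c (Finset.mem_range.1 hc)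
    rw [← Finset.mul_sum, Finset.sum_const, Finset.card_range, smul_eq_mul] at h4
    have h5 := Nat.mul_le_mul_left M h1
    omega
  obtain ⟨c, hc, hle⟩ := hlarge
  obtain ⟨h, hh, hpos⟩ := chain (C c) m hN h0 hh0 (hle.trans (Nat.mul_le_mul_right _ hM))
  obtain ⟨σ, hσ⟩ := Finset.card_pos.1 hpos
  have hPhi := (Finset.mem_filter.1 hσ).2
  set H : Fin (2 ^ N) → ZMod 2 × (Fin m → ZMod 2) := fun a => h (σ a) with hH
  have hHb : Bal H := bal_perm h hh σ
  have hn : 0 < 2 ^ N := by positivity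
  have hog : ∀ s s' : Fin m → ZMod 2, s ≠ s' →
      Og (vt (2 ^ N)) (rep i0 (vec H s)) (rep i0 (vec H s')) := by
    intro s s' hs
    rw [og_iff _ hn]
    exact Sc_rep i0 _ _ (Sc_vec H hHb s s' hs)
  have hinj : Function.Injective (fun s : Fin m → ZMod 2 => rep i0 (vec H s)) := by
    intro s s' hss
    by_contra hne
    have h1 := hog s s' hne
    simp only at hss
    rw [hss] at h1
    exact (model_vt (2 ^ N) i0).irr _ (rep_mem i0 _) h1
  obtain ⟨x, hx, y, hy, hxy⟩ := hno (univ.image (fun s : Fin m → ZMod 2 => rep i0 (vec H s)))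
    (by
      intro x hx
      obtain ⟨s, _, rfl⟩ := Finset.mem_image.1 hx
      exact rep_mem i0 _)
    ⟨by
      rw [Finset.card_image_of_injective _ hinj, Finset.card_univ, Fintype.card_pi]
      simp [ZMod.card], by
      intro x hx y hy hxy
      obtain ⟨s, _, rfl⟩ := Finset.mem_image.1 hx
      obtain ⟨s', _, rfl⟩ := Finset.mem_image.1 hy
      exact hog s s' (fun h => hxy (by rw [h]))⟩
  obtain ⟨s, _, rfl⟩ := Finset.mem_image.1 hx
  obtain ⟨s', _, rfl⟩ := Finset.mem_image.1 hy
  apply hxy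
  have h1 : col (rep i0 (vec H s)) = c := hPhi s
  have h2 : col (rep i0 (vec H s')) = c := hPhi s'
  rw [h1, h2]

end Pool.Dia50d
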