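import Mathlib
import Pool.Agent.Dia50d.Fin

/-!
MP_d16438_co, PolynomialLower: the colouring by the first coordinates.
-/

set_option autoImplicit false

namespace Pool.Dia50d

open Finset Pool.Dia50b

/-- `r` pairwise orthogonal vectors agree in at most `n / r` coordinates. -/
theorem agree_le {n r : ℕ} (hr : 1 ≤ r) (S : Finset (Fin n → ZMod 2)) (hS : S.card = r)
    (ho : ∀ x ∈ S, ∀ y ∈ S, x ≠ y → Sc x y = 0) (K : Finset (Fin n))
    (hK : ∀ i ∈ K, ∀ x ∈ S, ∀ y ∈ S, x i = y i) : K.card * r ≤ n := by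
  classical
  have h1 : ∑ i : Fin n, (∑ x ∈ S, sg (x i)) ^ 2 = (r : ℝ) * n := by
    have e1 : ∀ i : Fin n, (∑ x ∈ S, sg (x i)) ^ 2 = ∑ x ∈ S, ∑ y ∈ S, sg (x i) * sg (y i) := by
      intro i
      rw [sq, Finset.sum_mul_sum]
    simp only [e1]
    rw [Finset.sum_comm]
    have e2 : ∀ x ∈ S, ∑ i : Fin n, ∑ y ∈ S, sg (x i) * sg (y i) = n := by
      intro x hx
      rw [Finset.sum_comm]
      have e3 : ∀ y ∈ S, ∑ i : Fin n, sg (x i) * sg (y i) = if y = x then (n : ℝ) else 0 := by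
        intro y hy
        by_cases hxy : y = x
        · rw [if_pos hxy, hxy]; exact Sc_self x
        · rw [if_neg hxy]; exact ho x hx y hy (fun h => hxy h.symm)
      rw [Finset.sum_congr rfl e3, Finset.sum_ite_eq' S x, if_pos hx]
    rw [Finset.sum_congr rfl e2, Finset.sum_const, hS, nsmul_eq_mul]
  have h2 : ∀ i ∈ K, (∑ x ∈ S, sg (x i)) ^ 2 = (r : ℝ) ^ 2 := by
    intro i hi
    obtain ⟨x0, hx0⟩ : S.Nonempty := Finset.card_pos.1 (by omega)
    have e1 : ∑ x ∈ S, sg (x i) = r * sg (x0 i) := by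
      rw [Finset.sum_congr rfl (fun x hx => by rw [hK i hi x hx x0 hx0]), Finset.sum_const, hS,
        nsmul_eq_mul]
    have e2 : sg (x0 i) ^ 2 = 1 := by
      rcases zmod2_cases (x0 i) with h | h <;> rw [h] <;> simp [sg_zero, sg_one]
    rw [e1, mul_pow, e2, mul_one]
  have h3 : (K.card : ℝ) * (r : ℝ) ^ 2 ≤ (r : ℝ) * n := by
    rw [← h1]
    calc (K.card : ℝ) * (r : ℝ) ^ 2 = ∑ i ∈ K, (∑ x ∈ S, sg (x i)) ^ 2 := by
          rw [Finset.sum_congr rfl h2, Finset.sum_const, nsmul_eq_mul]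
      _ ≤ ∑ i : Fin n, (∑ x ∈ S, sg (x i)) ^ 2 :=
          Finset.sum_le_sum_of_subset_of_nonneg (Finset.subset_univ _)
            (fun i _ _ => sq_nonneg _)
  have hr0 : (0 : ℝ) < r := by exact_mod_cast (by omega : 0 < r)
  have h4 : (K.card : ℝ) * r ≤ n := by
    have : (r : ℝ) * (K.card * r) ≤ r * n := by nlinarith
    exact le_of_mul_le_mul_left this hr0
  exact_mod_cast h4

theorem up_col (n r : ℕ) (hr : 2 ≤ r) (hn : 2 ≤ n) :
    ColOn (Og (vt n)) (UU n ⟨0, by omega⟩) r (2 ^ (n / r)) := by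
  classical
  have hk : n / r + 1 ≤ n := by
    have : n / r < n := Nat.div_lt_self (by omega) (by omega)
    omega
  have hcard : Fintype.card (Fin (n / r) → ZMod 2) = 2 ^ (n / r) := by
    rw [Fintype.card_pi]; simp [ZMod.card]
  set e := Fintype.equivFinOfCardEq hcard
  refine ⟨fun x => (e (fun i => x ⟨i.1 + 1, by omega⟩) : ℕ), fun x _ => Fin.is_lt _, ?_⟩
  intro S hS hC
  by_contra hcon
  push Not at hcon
  have hagree : ∀ i : Fin n, i.1 < n / r + 1 → ∀ x ∈ S, ∀ y ∈ S, x i = y i := by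
    intro i hi x hx y hy
    by_cases hi0 : i.1 = 0
    · have e1 : i = ⟨0, by omega⟩ := Fin.ext hi0
      have hx0 := (Finset.mem_filter.1 (hS hx)).2
      have hy0 := (Finset.mem_filter.1 (hS hy)).2
      rw [e1, hx0, hy0]
    · have h1 := e.injective (Fin.ext (hcon x hx y hy))
      have h2 := congrFun h1 ⟨i.1 - 1, by omega⟩
      have e1 : i = ⟨i.1 - 1 + 1, by omega⟩ := Fin.ext (by simp only; omega)
      rw [e1]; exact h2
  have h1 := agree_le (by omega) S hC.1
    (fun x hx y hy hxy => (og_iff n (by omega) x y).1 (hC.2 x hx y hy hxy))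
    (univ.filter (fun i : Fin n => i.1 < n / r + 1))
    (fun i hi => hagree i (Finset.mem_filter.1 hi).2)
  have h2 : (univ.filter (fun i : Fin n => i.1 < n / r + 1)).card = n / r + 1 := by
    rw [Fin.card_filter_val_lt]
    omega
  rw [h2] at h1
  have h3 := Nat.lt_div_mul_add (a := n) (b := r) (by omega)
  nlinarith

end Pool.Dia50d
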