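import Mathlib
import Pool.Agent.Dia50d.Up

/-!
MP_d16438_co, PolynomialLower: the density version, and point sets with their adjacency.
-/

set_option autoImplicit false

namespace Pool.Dia50d

open Finset Pool.Dia50b

theorem Sc_add {n : ℕ} (x y z : Fin n → ZMod 2) :
    Sc (fun i => x i + z i) (fun i => y i + z i) = Sc x y := by
  unfold Sc
  apply Finset.sum_congr rfl
  intro i _
  have h : sg (z i) * sg (z i) = 1 := by
    rw [← sg_add, CharTwo.add_self_eq_zero, sg_zero]
  rw [sg_add, sg_add]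
  calc sg (x i) * sg (z i) * (sg (y i) * sg (z i)) = sg (x i) * sg (y i) * (sg (z i) * sg (z i)) := by
        ring
    _ = _ := by rw [h, mul_one]

theorem card_le_two {n : ℕ} (i0 : Fin n) :
    Fintype.card (Fin n → ZMod 2) ≤ 2 * (UU n i0).card := by
  classical
  have h1 : 2 * (UU n i0).card = ((UU n i0) ×ˢ (univ : Finset (ZMod 2))).card := by
    rw [Finset.card_product, Finset.card_univ, ZMod.card, mul_comm]
  rw [h1, ← Finset.card_univ]
  apply Finset.card_le_card_of_injOn (fun y => (rep i0 y, y i0))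
  · intro y _
    exact Finset.mem_coe.2 (Finset.mem_product.2 ⟨rep_mem i0 y, Finset.mem_univ _⟩)
  · intro y _ y' _ h
    rw [Prod.mk.injEq] at h
    funext i
    have h2 := congrFun h.1 i
    have h3 : y i + y i0 = y' i + y' i0 := h2
    rw [h.2] at h3
    exact add_right_cancel h3

theorem two_card_le {n : ℕ} (i0 : Fin n) (A : Finset (Fin n → ZMod 2)) (hA : A ⊆ UU n i0) :
    2 * A.card ≤ (univ.filter (fun y : Fin n → ZMod 2 => rep i0 y ∈ A)).card := by
  classical
  have h1 : 2 * A.card = (A ×ˢ (univ : Finset (ZMod 2))).card := by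
    rw [Finset.card_product, Finset.card_univ, ZMod.card, mul_comm]
  have hrep : ∀ a ∈ A, ∀ b : ZMod 2, rep i0 (fun i => a i + b) = a := by
    intro a ha b
    funext i
    have h0 : a i0 = 0 := (Finset.mem_filter.1 (hA ha)).2
    show a i + b + (a i0 + b) = a i
    rw [h0, zero_add, add_assoc, CharTwo.add_self_eq_zero, add_zero]
  rw [h1]
  apply Finset.card_le_card_of_injOn (fun p i => p.1 i + p.2)
  · rintro ⟨a, b⟩ hp
    have ha := (Finset.mem_product.1 (Finset.mem_coe.1 hp)).1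
    refine Finset.mem_coe.2 (Finset.mem_filter.2 ⟨Finset.mem_univ _, ?_⟩)
    show rep i0 (fun i => a i + b) ∈ A
    rw [hrep a ha b]; exact ha
  · rintro ⟨a, b⟩ hp ⟨a', b'⟩ hp' h
    have ha := (Finset.mem_product.1 (Finset.mem_coe.1 hp)).1
    have ha' := (Finset.mem_product.1 (Finset.mem_coe.1 hp')).1
    have h2 : a = a' := by
      have h3 := congrArg (rep i0) h
      have h4 : rep i0 (fun i => a i + b) = rep i0 (fun i => a' i + b') := h3
      rw [hrep a ha b, hrep a' ha' b'] at h4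
      exact h4
    subst h2
    have h5 := congrFun h i0
    have h6 : a i0 + b = a i0 + b' := h5
    rw [add_left_cancel h6]

/-- **Density version.** -/
theorem dens (N m e : ℕ) (hm : 1 ≤ m) (hN : 4 * m + e ≤ N) (i0 : Fin (2 ^ N))
    (A : Finset (Fin (2 ^ N) → ZMod 2)) (hA : A ⊆ UU (2 ^ N) i0) (hA0 : A.Nonempty)
    (hd : (UU (2 ^ N) i0).card ≤ 7 ^ (2 ^ e) * A.card) :
    ∃ S ⊆ A, Clq (Og (vt (2 ^ N))) (2 ^ m) S := by
  classical
  obtain ⟨h0, hh0⟩ := exists_h N 0 (by omega)
  set C : (Fin (2 ^ N) → ZMod 2) → Set (Fin (2 ^ N) → ZMod 2) :=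
    fun z => {x | rep i0 (fun i => x i + z i) ∈ A} with hC
  set W := univ.filter (fun y : Fin (2 ^ N) → ZMod 2 => rep i0 y ∈ A) with hW
  set q := Fintype.card (Fin (2 ^ N) → ZMod 2) with hq
  have hW2 := two_card_le i0 A hA
  have hq2 := card_le_two i0
  rw [← hW] at hW2
  rw [← hq] at hq2
  have hApos : 0 < A.card := Finset.card_pos.2 hA0
  have hWpos : 0 < W.card := by omega
  have hsum : (2 ^ N).factorial * W.card ≤
      ∑ z : Fin (2 ^ N) → ZMod 2, cnt (Phi 0 (C z)) h0 := by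
    have h1 : ∀ z, cnt (Phi 0 (C z)) h0 = ∑ σ : Equiv.Perm (Fin (2 ^ N)),
        if Phi 0 (C z) (fun a => h0 (σ a)) then 1 else 0 := by
      intro z
      unfold cnt
      rw [Finset.card_filter]
    rw [Finset.sum_congr rfl (fun z _ => h1 z), Finset.sum_comm]
    have h2 : ∀ σ : Equiv.Perm (Fin (2 ^ N)), W.card ≤ ∑ z : Fin (2 ^ N) → ZMod 2,
        if Phi 0 (C z) (fun a => h0 (σ a)) then 1 else 0 := by
      intro σ
      rw [← Finset.card_filter]
      apply Finset.card_le_card_of_injOn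
        (fun y i => vec (fun a => h0 (σ a)) default i + y i)
      · intro y hy
        rw [Finset.mem_coe, hW, Finset.mem_filter] at hy
        refine Finset.mem_coe.2 (Finset.mem_filter.2 ⟨Finset.mem_univ _, ?_⟩)
        intro s
        have hs : s = default := Subsingleton.elim _ _
        rw [hs]
        show rep i0 (fun i => vec (fun a => h0 (σ a)) default i +
          (vec (fun a => h0 (σ a)) default i + y i)) ∈ A
        have h3 : (fun i => vec (fun a => h0 (σ a)) default i +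
            (vec (fun a => h0 (σ a)) default i + y i)) = y := by
          funext i
          rw [← add_assoc, CharTwo.add_self_eq_zero, zero_add]
        rw [h3]; exact hy.2
      · intro y _ y' _ hyy
        funext i
        exact add_left_cancel (congrFun hyy i)
    calc (2 ^ N).factorial * W.card = ∑ _σ : Equiv.Perm (Fin (2 ^ N)), W.card := by
          rw [Finset.sum_const, Finset.card_univ, Fintype.card_perm, Fintype.card_fin, smul_eq_mul]
      _ ≤ _ := Finset.sum_le_sum (fun σ _ => h2 σ)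
  have hz : ∃ z, (2 ^ N).factorial * W.card ≤ q * cnt (Phi 0 (C z)) h0 := by
    by_contra hcon
    push Not at hcon
    have h4 : ∑ z : Fin (2 ^ N) → ZMod 2, q * cnt (Phi 0 (C z)) h0 <
        ∑ _z : Fin (2 ^ N) → ZMod 2, (2 ^ N).factorial * W.card :=
      Finset.sum_lt_sum_of_nonempty Finset.univ_nonempty (fun z _ => hcon z)
    rw [← Finset.mul_sum, Finset.sum_const, Finset.card_univ, smul_eq_mul, ← hq] at h4
    have h5 := Nat.mul_le_mul_left q hsum
    omega
  obtain ⟨z, hz⟩ := hz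
  have hle : (2 ^ N).factorial ≤ 7 ^ (2 ^ e) * cnt (Phi 0 (C z)) h0 := by
    have h1 : q ≤ 7 ^ (2 ^ e) * W.card := by
      calc q ≤ 2 * (UU (2 ^ N) i0).card := hq2
        _ ≤ 2 * (7 ^ (2 ^ e) * A.card) := Nat.mul_le_mul_left _ hd
        _ = 7 ^ (2 ^ e) * (2 * A.card) := by ring
        _ ≤ 7 ^ (2 ^ e) * W.card := Nat.mul_le_mul_left _ hW2
    apply Nat.le_of_mul_le_mul_right _ hWpos
    calc (2 ^ N).factorial * W.card ≤ q * cnt (Phi 0 (C z)) h0 := hz
      _ ≤ 7 ^ (2 ^ e) * W.card * cnt (Phi 0 (C z)) h0 := Nat.mul_le_mul_right _ h1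
      _ = 7 ^ (2 ^ e) * cnt (Phi 0 (C z)) h0 * W.card := by ring
  obtain ⟨h, hh, hpos⟩ := chain (C z) m hN h0 hh0 hle
  obtain ⟨σ, hσ⟩ := Finset.card_pos.1 hpos
  have hPhi := (Finset.mem_filter.1 hσ).2
  set H : Fin (2 ^ N) → ZMod 2 × (Fin m → ZMod 2) := fun a => h (σ a) with hH
  have hHb : Bal H := bal_perm h hh σ
  have hn : 0 < 2 ^ N := by positivity
  set w : (Fin m → ZMod 2) → Fin (2 ^ N) → ZMod 2 := fun s => rep i0 (fun i => vec H s i + z i)
    with hw
  have hwA : ∀ s, w s ∈ A := fun s => hPhi s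
  have hog : ∀ s s' : Fin m → ZMod 2, s ≠ s' → Og (vt (2 ^ N)) (w s) (w s') := by
    intro s s' hs
    rw [og_iff _ hn]
    apply Sc_rep
    rw [Sc_add]
    exact Sc_vec H hHb s s' hs
  have hinj : Function.Injective w := by
    intro s s' hss
    by_contra hne
    have h1 := hog s s' hne
    rw [hss] at h1
    exact (model_vt (2 ^ N) i0).irr _ (hA (hwA s')) h1
  refine ⟨univ.image w, ?_, ?_, ?_⟩
  · intro x hx
    obtain ⟨s, _, rfl⟩ := Finset.mem_image.1 hx
    exact hwA s
  · rw [Finset.card_image_of_injective _ hinj, Finset.card_univ, Fintype.card_pi]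
    simp [ZMod.card]
  · intro x hx y hy hxy
    obtain ⟨s, _, rfl⟩ := Finset.mem_image.1 hx
    obtain ⟨s', _, rfl⟩ := Finset.mem_image.1 hy
    exact hog s s' (fun h => hxy (by rw [h]))

/-- Points with squared distances at most `2` as a point set of `ℝ^d`, with the adjacency. -/
theorem realise' {T ι : Type} [Fintype ι] (d : ℕ) (hd : Fintype.card ι ≤ d) (p : T → ι → ℝ)
    (U : Finset T) (G : T → T → Prop)
    (hp : ∀ a ∈ U, ∀ b ∈ U, d2 (p a) (p b) ≤ 2 ∧ (d2 (p a) (p b) = 2 ↔ G a b) ∧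
      (a ≠ b → 0 < d2 (p a) (p b)))
    (hedge : ∃ a ∈ U, ∃ b ∈ U, G a b) :
    ∃ (P : Finset (EuclideanSpace ℝ (Fin d))) (f : T → EuclideanSpace ℝ (Fin d)),
      2 ≤ P.card ∧ (∀ x, x ∈ P ↔ ∃ a ∈ U, f a = x) ∧
      (∀ a ∈ U, ∀ b ∈ U, f a = f b → a = b) ∧
      (∀ a ∈ U, ∀ b ∈ U,
        (dist (f a) (f b) = Metric.diam (P : Set (EuclideanSpace ℝ (Fin d))) ↔ G a b)) := by
  classical
  obtain ⟨e⟩ : Nonempty (ι ↪ Fin d) := Function.Embedding.nonempty_of_card_le (by simpa using hd)
  set f : T → EuclideanSpace ℝ (Fin d) := fun a => WithLp.toLp 2 (Function.extend e (p a) 0) with hf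
  have hdist : ∀ a b, dist (f a) (f b) ^ 2 = d2 (p a) (p b) := by
    intro a b
    have h0 : dist (f a) (f b) ^ 2 = ∑ i, ((f a).ofLp i - (f b).ofLp i) ^ 2 := by
      rw [EuclideanSpace.dist_eq, Real.sq_sqrt (Finset.sum_nonneg (fun i _ => sq_nonneg _))]
      apply Finset.sum_congr rfl
      intro i _
      rw [Real.dist_eq, sq_abs]
    rw [h0]
    exact sum_extend e (p a) (p b)
  set P := U.image f with hP
  have hinj : ∀ a ∈ U, ∀ b ∈ U, f a = f b → a = b := by
    intro a ha b hb hab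
    by_contra hne
    have h1 := (hp a ha b hb).2.2 hne
    rw [← hdist, hab, dist_self] at h1
    norm_num at h1
  have hs2 : (0 : ℝ) ≤ Real.sqrt 2 := Real.sqrt_nonneg _
  have hsq : Real.sqrt 2 ^ 2 = 2 := Real.sq_sqrt (by norm_num)
  have hle : ∀ a ∈ U, ∀ b ∈ U, dist (f a) (f b) ≤ Real.sqrt 2 := by
    intro a ha b hb
    apply Real.le_sqrt_of_sq_le
    rw [hdist]
    exact (hp a ha b hb).1
  have hiff : ∀ a ∈ U, ∀ b ∈ U, (dist (f a) (f b) = Real.sqrt 2 ↔ G a b) := by
    intro a ha b hb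
    rw [← (hp a ha b hb).2.1, ← hdist]
    constructor
    · intro h; rw [h, hsq]
    · intro h
      exact (sq_eq_sq₀ dist_nonneg hs2).1 (by rw [h, hsq])
  obtain ⟨a0, ha0, b0, hb0, hG0⟩ := hedge
  have hd0 : dist (f a0) (f b0) = Real.sqrt 2 := (hiff a0 ha0 b0 hb0).2 hG0
  have hdiam : Metric.diam (P : Set (EuclideanSpace ℝ (Fin d))) = Real.sqrt 2 := by
    apply le_antisymm
    · apply Metric.diam_le_of_forall_dist_le hs2
      intro x hx y hy
      rw [Finset.mem_coe, hP, Finset.mem_image] at hx hy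
      obtain ⟨a, ha, rfl⟩ := hx
      obtain ⟨b, hb, rfl⟩ := hy
      exact hle a ha b hb
    · rw [← hd0]
      apply Metric.dist_le_diam_of_mem P.finite_toSet.isBounded
      · exact Finset.mem_coe.2 (Finset.mem_image_of_mem _ ha0)
      · exact Finset.mem_coe.2 (Finset.mem_image_of_mem _ hb0)
  refine ⟨P, f, ?_, ?_, hinj, ?_⟩
  · have hne : f a0 ≠ f b0 := by
      intro h
      rw [h, dist_self] at hd0
      have : (0 : ℝ) < Real.sqrt 2 := Real.sqrt_pos.2 (by norm_num)
      linarith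
    have : 1 < P.card := Finset.one_lt_card.2 ⟨f a0, Finset.mem_image_of_mem _ ha0, f b0,
      Finset.mem_image_of_mem _ hb0, hne⟩
    omega
  · intro x
    rw [hP, Finset.mem_image]
  · intro a ha b hb
    rw [hdiam]
    exact hiff a ha b hb

end Pool.Dia50d
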